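import Pool.Agent.Y839.Mon.Names

/-!
# Hereditary super-rigidity of random monster groups: characterization and uniformity

The labels are the reduced words of length `j`. For an arbitrary sequence of finite graphs,
super-rigidity and hereditary super-rigidity with respect to a countable group with an element of
infinite order hold if and only if infinitely many of the graphs contain a cycle, and then one null
set works for all targets of the list below, and images have at most two elements.
-/

set_option autoImplicit false

namespace Pool.Agent.Results.MP_b8022a_al.AllTargets

open MeasureTheory Pool.Agent.H862R3.Monster Pool.Agent.Y839.Mon

universe u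

/-- (1) The standing assumptions of the problem imply that infinitely many of the graphs contain a
cycle. (2) If infinitely many of the graphs contain a cycle, then for almost every labelling
simultaneously: subgroups of finite index have index at most `2`, and homomorphisms from them to a
member of a given countable family of countable groups, to any residually finite group, to any
linear group over a field, to any subgroup of a finitely presented group take at most two values.
(3) For every countable group `G` with an element of infinite order, super-rigidity with respect to
`G`, hereditary super-rigidity with respect to `G`, and the existence of infinitely many graphs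
with a cycle are equivalent. -/
theorem result :
    StandingInfCyc ∧
    ∀ (k j : ℕ) (hk : 2 ≤ k) (_ : 1 ≤ j)
      (V : ℕ → Type) [∀ n, Finite (V n)] (Ω : ∀ n, SimpleGraph (V n)),
      (InfCyc Ω → ∀ (I : Type) [Countable I] (G : I → Type u) [∀ i, Group (G i)]
        [∀ i, Countable (G i)], AlmostAll (Red k j hk) Ω G) ∧
      ∀ (G : Type u) [Group G] [Countable G], (∃ g : G, ¬ IsOfFinOrder g) →
        Crit (Red k j hk) Ω G := by
  refine ⟨standingInfCyc, ?_⟩
  intro k j hk hj V _ Ω
  refine ⟨?_, ?_⟩
  · intro hΩ I _ G _ _
    exact uni hk hΩ (good_Red hk hj) (quot_mem_Ev_Red hk) G
  · intro G _ _ hG
    exact crit hk (good_Red hk hj) (quot_mem_Ev_Red hk) j (pow_mem_Red j hk) G hG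

end Pool.Agent.Results.MP_b8022a_al.AllTargets
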